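import Pool.Agent.L7h3.SC.Stm

set_option autoImplicit false

/-! # Part CIRC of project SC -/

namespace Pool.Agent.L7h10.SC

open Pool.Agent.L7h3.SC Filter Topology

theorem s_CIRC (h1 : S_ORT) (h2 : S_TAN) (_h3 : S_COLL) (h4 : S_UNIQ) : S_CIRC := by
  intro E _ _ _ hE P Q α β hPQ
  by_contra hinf
  have hinf' : {z : E | dist z P = α ∧ dist z Q = β}.Infinite := hinf
  haveI : FiniteDimensional ℝ E := Module.finite_of_finrank_pos (by rw [hE]; norm_num)
  haveI : ProperSpace E := FiniteDimensional.proper ℝ E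
  have hsub : {z : E | dist z P = α ∧ dist z Q = β} ⊆ Metric.closedBall P α := by
    rintro z ⟨hz, _⟩
    rw [Metric.mem_closedBall, hz]
  obtain ⟨l, _, hl⟩ := hinf'.exists_accPt_of_subset_isCompact (isCompact_closedBall P α) hsub
  rw [accPt_iff_nhds] at hl
  have hch : ∀ n : ℕ, ∃ z : E, dist z l < 1 / ((n : ℝ) + 1) ∧ (dist z P = α ∧ dist z Q = β) ∧
      z ≠ l := by
    intro n
    obtain ⟨y, ⟨hy1, hy2⟩, hy3⟩ := hl (Metric.ball l (1 / ((n : ℝ) + 1)))
      (Metric.ball_mem_nhds l (by positivity))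
    exact ⟨y, hy1, hy2, hy3⟩
  choose z hz1 hz2 hz3 using hch
  have hzt : Tendsto z atTop (𝓝 l) := by
    rw [tendsto_iff_dist_tendsto_zero]
    refine squeeze_zero (fun n => dist_nonneg) (fun n => (hz1 n).le) ?_
    exact tendsto_one_div_add_atTop_nhds_zero_nat
  have hlP : dist l P = α := by
    have h := (hzt.dist (tendsto_const_nhds (x := P)))
    have h' : Tendsto (fun n => dist (z n) P) atTop (𝓝 α) := by
      refine tendsto_const_nhds.congr fun n => (hz2 n).1.symm
    exact tendsto_nhds_unique h h'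
  have hlQ : dist l Q = β := by
    have h := (hzt.dist (tendsto_const_nhds (x := Q)))
    have h' : Tendsto (fun n => dist (z n) Q) atTop (𝓝 β) := by
      refine tendsto_const_nhds.congr fun n => (hz2 n).2.symm
    exact tendsto_nhds_unique h h'
  have hsph : ∀ n, ‖z n - l‖⁻¹ • (z n - l) ∈ Metric.sphere (0 : E) 1 := by
    intro n
    have h0 : ‖z n - l‖ ≠ 0 := by
      rw [norm_ne_zero_iff]
      exact sub_ne_zero.mpr (hz3 n)
    rw [mem_sphere_zero_iff_norm, norm_smul, norm_inv, norm_norm, inv_mul_cancel₀ h0]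
  obtain ⟨w, hw, φ, hφ, hφw⟩ := (isCompact_sphere (0 : E) 1).tendsto_subseq hsph
  have hw0 : w ≠ 0 := by
    rintro rfl
    rw [mem_sphere_zero_iff_norm, norm_zero] at hw
    exact zero_ne_one hw
  have hzφ : Tendsto (fun n => z (φ n)) atTop (𝓝 l) := hzt.comp hφ.tendsto_atTop
  have hBP : Bort (l - P) w := by
    refine h2 E (fun n => z (φ n)) (fun _ => l) l P w hzφ tendsto_const_nhds
      (fun n => hz3 (φ n)) (fun n => ?_) hφw
    rw [(hz2 (φ n)).1, hlP]
  have hBQ : Bort (l - Q) w := by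
    refine h2 E (fun n => z (φ n)) (fun _ => l) l Q w hzφ tendsto_const_nhds
      (fun n => hz3 (φ n)) (fun n => ?_) hφw
    rw [(hz2 (φ n)).2, hlQ]
  have hlP0 : l - P ≠ 0 := by
    intro h
    have h5 : l = P := sub_eq_zero.mp h
    have h6 : α = 0 := by rw [← hlP, h5, dist_self]
    have h7 := (hz2 0).1
    rw [h6, dist_eq_zero] at h7
    exact hz3 0 (h7.trans h5.symm)
  obtain ⟨r, hr⟩ := h1 E hE w (l - P) (l - Q) hw0 hlP0 hBP hBQ
  have hcol : Collinear ℝ {P, Q, l} := by
    rw [collinear_iff_of_mem (p₀ := l) (by simp)]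
    refine ⟨l - P, ?_⟩
    intro p hp
    simp only [Set.mem_insert_iff, Set.mem_singleton_iff] at hp
    rcases hp with rfl | rfl | rfl
    · exact ⟨-1, by simp⟩
    · refine ⟨-r, ?_⟩
      rw [neg_smul, ← hr, vadd_eq_add]
      abel
    · exact ⟨0, by simp⟩
  have := h4 E P Q l (z 0) hPQ hcol (by rw [(hz2 0).1, hlP]) (by rw [(hz2 0).2, hlQ])
  exact hz3 0 this

end Pool.Agent.L7h10.SC
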